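import Pool.Agent.Helper82.AN.Defs
import Pool.Agent.Helper46.QP.Meas
import Pool.Agent.Helper18.UC.FD
import Pool.Agent.Helper18.UC.Cell
import Pool.Agent.Helper18.UC.Basic

/-! Project AF (MP_9ee088_an): standard maps with an additive quasi-periodic force. Definitions.

A parameter is a pair `p = (a, b)`: the step is `(x, y) ↦ (2 x - y + a sin 2πx + b, x)`. A sequence `A : ℕ → ℝ × ℝ` of parameters. -/

set_option autoImplicit false
open MeasureTheory Real Set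
open scoped ENNReal

namespace Pool.Agent.Helper23.AF

open Pool.Agent.Helper18.UC (nn LL pt lab cor sh sqo rep toT cell corner clm)
open Pool.Agent.Helper46.QP (TT Td)

variable {d : ℕ}

/-! ### the torus -/

/-- the standard map with the amplitude `p.1`, followed by a translation by `p.2` of the first coordinate -/
noncomputable def stp (p : ℝ × ℝ) (z : TT) : TT :=
  ((Pool.Agent.Helper46.QP.stp ((p.1 : ℝ) : ℂ) z).1 + ((p.2 : ℝ) : UnitAddCircle), z.1)

/-- the entry `2 + 2 π a cos 2πx` of the derivative -/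
noncomputable def va (p : ℝ × ℝ) (x : UnitAddCircle) : ℝ := Pool.Agent.Helper46.QP.va ((p.1 : ℝ) : ℂ) x

/-- the orbit of `z` -/
noncomputable def orb (A : ℕ → ℝ × ℝ) (z : TT) : ℕ → TT
  | 0 => z
  | n + 1 => stp (A n) (orb A z n)

/-- the derivative matrices along the orbit -/
noncomputable def Mx (A : ℕ → ℝ × ℝ) (z : TT) : ℕ → Matrix (Fin 2) (Fin 2) ℝ
  | 0 => 1
  | n + 1 => Pool.Agent.Helper95.PV.mv (va (A n) (orb A z n).1) * Mx A z n

/-- the sequence which starts at time `m` -/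
def shA (A : ℕ → ℝ × ℝ) (m j : ℕ) : ℝ × ℝ := A (j + m)

/-- the parameters along the rotation -/
def sq (α : Td d) (f : Td d → ℝ × ℝ) (θ : Td d) (j : ℕ) : ℝ × ℝ := f (θ + j • α)

/-- the map of the torus of dimension `d + 2` with the parameter `f θ` -/
noncomputable def Fs (α : Td d) (f : Td d → ℝ × ℝ) (p : Td d × TT) : Td d × TT := (p.1 + α, stp (f p.1) p.2)

/-! ### the plane -/

/-- the plane map with the parameter `p` -/
noncomputable def Fp (p : ℝ × ℝ) (q : ℝ × ℝ) : ℝ × ℝ := ((Pool.Agent.Helper18.UC.F p.1 q).1 + p.2, q.1)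

/-- all amplitudes are bounded: `2 π |a j| + 4 ≤ L` -/
def Bd (A : ℕ → ℝ × ℝ) (L : ℝ) : Prop := ∀ j, LL (A j).1 ≤ L

/-- the plane map of the first `n` steps -/
noncomputable def po (A : ℕ → ℝ × ℝ) : ℕ → ℝ × ℝ → ℝ × ℝ
  | 0, q => q
  | n + 1, q => Fp (A n) (po A n q)

/-- its derivative matrix -/
noncomputable def pM (A : ℕ → ℝ × ℝ) : ℕ → ℝ × ℝ → Matrix (Fin 2) (Fin 2) ℝ
  | 0, _ => 1
  | n + 1, q => Pool.Agent.Helper18.UC.A (A n).1 (po A n q) * pM A n q

/-- the sequence read backwards from time `N` -/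
def rv (A : ℕ → ℝ × ℝ) (N j : ℕ) : ℝ × ℝ := A (N - 1 - j)

/-- the hyperbolicity rate -/
noncomputable def KL (L B : ℝ) : ℝ := 4 * B * Real.sqrt L

/-- `n` is a hyperbolic time of the point `q` -/
def Hyp (A : ℕ → ℝ × ℝ) (L B : ℝ) (n : ℕ) (q : ℝ × ℝ) : Prop :=
  ∀ i ≤ n, KL L B ^ (n - i) * nn (pM A i q) ≤ nn (pM A n q)

/-- compare `UC.Good` -/
def Good (A : ℕ → ℝ × ℝ) (L B : ℝ) (n : ℕ) (p : ℝ × ℝ) (k : Fin 2) (m : ℝ) : Prop :=
  (49 / 100) * nn (pM A n p) ≤ |m| ∧ |m| ≤ nn (pM A n p) ∧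
  ∀ q : ℝ × ℝ, dist q p ≤ B / nn (pM A n p) →
    |pM A n q 0 k - m| ≤ (3 / B) * |m| ∧ |pM A n q 1 k| ≤ (5 / KL L B) * |m|

/-- points of a square whose orbit hits the reflection of another square after `N` steps, modulo integers -/
def Hit (A : ℕ → ℝ × ℝ) (N : ℕ) (c : ℝ × ℝ) (s : ℝ) (c' : ℝ × ℝ) (s' : ℝ) : Set (ℝ × ℝ) :=
  {q | q ∈ sqo c s ∧ ∃ u w : ℤ, sh (Prod.swap (po A N q)) u w ∈ sqo c' s'}

/-- the cell `cell κ z` has the right size for the time `n` -/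
def Fit (A : ℕ → ℝ × ℝ) (L B : ℝ) (n κ : ℕ) (z : TT) : Prop :=
  Hyp A L B n (rep z) ∧ B / (2 * nn (pM A n (rep z))) ≤ 1 / 2 ^ κ ∧ 1 / 2 ^ κ ≤ B / nn (pM A n (rep z)) ∧
    1 ≤ κ

/-- a countable disjoint family of cells of the right size for the time `n`, almost filled by `E` -/
def FamS (A : ℕ → ℝ × ℝ) (L B : ℝ) (n : ℕ) (E : Set TT) (η : ℝ) (𝒬 : Set (Set TT)) : Prop :=
  𝒬.Countable ∧ 𝒬.PairwiseDisjoint id ∧
    (∀ Q ∈ 𝒬, ∃ (κ : ℕ) (z : TT), Q = cell κ z ∧ Fit A L B n κ z) ∧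
    ∀ Q ∈ 𝒬, volume (Q \ E) ≤ ENNReal.ofReal η * volume Q

/-! ### on the torus of dimension `d + 2` -/

/-- derivative of the `n`-th iterate of `Fs α f` along the fibre -/
noncomputable def gN (α : Td d) (f : Td d → ℝ × ℝ) (n : ℕ) (p : Td d × TT) : ℝ :=
  nn (Mx (sq α f p.1) p.2 n)

/-- growth at time `N` -/
def PN (α : Td d) (f : Td d → ℝ × ℝ) (c : ℝ) (N : ℕ) : Set (Td d × TT) := {p | Real.exp (c * N) ≤ gN α f N p}

/-- `n` is a hyperbolic time -/
def HG (α : Td d) (f : Td d → ℝ × ℝ) (L B : ℝ) (n : ℕ) : Set (Td d × TT) :=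
  {p | Hyp (sq α f p.1) L B n (rep p.2)}

/-- points whose lower exponent exceeds `c` -/
noncomputable def om (α : Td d) (f : Td d → ℝ × ℝ) (c : ℝ) : Set (Td d × TT) :=
  {p | c < Filter.liminf (fun n : ℕ => Real.log (gN α f n p) / n) Filter.atTop}

/-- the proportion of hyperbolic times -/
noncomputable def prp (L B c : ℝ) : ℝ := (c - Real.log (KL L B)) / (Real.log L - Real.log (KL L B))

/-- numbers for which the theory works -/
structure Num (L B c : ℝ) : Prop where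
  hB : 100 ≤ B
  hL : 2 * KL L B ≤ L
  hc : Real.log (KL L B) < c
  hc2 : c ≤ Real.log L
  half : 1 / 2 < prp L B c

/-! ### first properties -/

lemma orb_zero (A : ℕ → ℝ × ℝ) (z : TT) : orb A z 0 = z := rfl

lemma orb_succ (A : ℕ → ℝ × ℝ) (z : TT) (n : ℕ) : orb A z (n + 1) = stp (A n) (orb A z n) := rfl

lemma Mx_zero (A : ℕ → ℝ × ℝ) (z : TT) : Mx A z 0 = 1 := rfl

lemma Mx_succ (A : ℕ → ℝ × ℝ) (z : TT) (n : ℕ) :
    Mx A z (n + 1) = Pool.Agent.Helper95.PV.mv (va (A n) (orb A z n).1) * Mx A z n := rfl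

lemma sq_add (α : Td d) (f : Td d → ℝ × ℝ) (θ : Td d) (m : ℕ) : shA (sq α f θ) m = sq α f (θ + m • α) := by
  funext j
  unfold shA sq
  rw [add_assoc, ← add_nsmul, add_comm m j]

lemma Fs_iter (α : Td d) (f : Td d → ℝ × ℝ) (θ : Td d) (z : TT) (n : ℕ) :
    (Fs α f)^[n] (θ, z) = (θ + n • α, orb (sq α f θ) z n) := by
  induction n with
  | zero => simp [orb]
  | succ n ih =>
    rw [Function.iterate_succ_apply', ih]
    unfold Fs
    rw [orb_succ]
    refine Prod.ext ?_ rfl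
    show θ + n • α + α = θ + (n + 1) • α
    rw [succ_nsmul, add_assoc]

end Pool.Agent.Helper23.AF
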