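import Pool.Agent.Helper23.AF.Defs

/-! Block AF-NUM (port of `num_ok` in `Helper82/AN/SBig.lean`): the numbers for which the theory works. -/

set_option autoImplicit false
open MeasureTheory Real Set Filter Topology

namespace Pool.Agent.Helper23.AF

open Pool.Agent.Helper18.UC (nn LL)

theorem num_ok {κ₁ : ℝ} (h1 : 0 < κ₁) : ∃ A₂ : ℝ, ∀ lam0 : ℝ, A₂ ≤ lam0 →
    Num (2 * π * (κ₁ * lam0) + 4) 100 (7 / 8 * Real.log lam0) := by
  have hpi := Real.pi_pos
  have hk : 0 < 2 * π * κ₁ := by positivity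
  set C : ℝ := 2 * π * κ₁ + 4 with hC
  have hC4 : 4 < C := by linarith
  set l : ℝ := Real.log (2 * π * κ₁) with hl
  set M : ℝ := 10 * (Real.log C + Real.log 400 + |l| + 1) with hM
  have hlC : 0 < Real.log C := Real.log_pos (by linarith)
  have hl400 : 0 < Real.log 400 := Real.log_pos (by norm_num)
  refine ⟨max 1 (max (640000 / (2 * π * κ₁)) (Real.exp M)), fun a ha => ?_⟩
  have ha1 : 1 ≤ a := (le_max_left _ _).trans ha
  have ha2 : 640000 / (2 * π * κ₁) ≤ a := ((le_max_left _ _).trans (le_max_right _ _)).trans ha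
  have ha3 : Real.exp M ≤ a := ((le_max_right _ _).trans (le_max_right _ _)).trans ha
  have ha0 : 0 < a := by linarith
  set ℓ : ℝ := Real.log a with hℓ
  have hMℓ : M ≤ ℓ := by
    rw [hℓ, Real.le_log_iff_exp_le ha0]
    exact ha3
  set L : ℝ := 2 * π * (κ₁ * a) + 4 with hL
  have hLk : 2 * π * κ₁ * a ≤ L := by rw [hL]; nlinarith
  have hLC : L ≤ C * a := by rw [hL, hC]; nlinarith
  have hL6 : 640000 ≤ L := by
    rw [div_le_iff₀ hk] at ha2
    linarith
  have hL0 : 0 < L := by linarith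
  have hlogL1 : l + ℓ ≤ Real.log L := by
    rw [hl, hℓ, ← Real.log_mul hk.ne' ha0.ne']
    exact Real.log_le_log (by positivity) hLk
  have hlogL2 : Real.log L ≤ Real.log C + ℓ := by
    rw [hℓ, ← Real.log_mul (by linarith) ha0.ne']
    exact Real.log_le_log hL0 hLC
  have hKL : KL L 100 = 400 * Real.sqrt L := by unfold KL; ring
  have hs : Real.sqrt L * Real.sqrt L = L := Real.mul_self_sqrt hL0.le
  have hs0 : 0 < Real.sqrt L := Real.sqrt_pos.mpr hL0
  have hs8 : 800 ≤ Real.sqrt L := by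
    apply Real.le_sqrt_of_sq_le
    linarith
  have hlK : Real.log (KL L 100) = Real.log 400 + Real.log L / 2 := by
    rw [hKL, Real.log_mul (by norm_num) hs0.ne', Real.log_sqrt hL0.le]
  have hal : -|l| ≤ l := neg_abs_le l
  have hal0 : 0 ≤ |l| := abs_nonneg l
  refine ⟨le_refl _, ?_, ?_, ?_, ?_⟩
  · rw [hKL]; nlinarith
  · rw [hlK]; linarith
  · linarith
  · unfold prp
    rw [hlK, lt_div_iff₀ (by linarith)]
    linarith

/-- for one amplitude -/
theorem num_LL : ∃ A : ℝ, ∀ a : ℝ, A ≤ |a| → Num (LL a) 100 (7 / 8 * Real.log |a|) := by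
  obtain ⟨A₂, h⟩ := num_ok (κ₁ := 1) one_pos
  refine ⟨A₂, fun a ha => ?_⟩
  have h1 := h |a| ha
  have e : 2 * π * (1 * |a|) + 4 = LL a := by
    unfold Pool.Agent.Helper18.UC.LL
    ring
  rwa [e] at h1

end Pool.Agent.Helper23.AF
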