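import Pool.Agent.Helper23.AF.SSel
import Pool.Agent.Helper23.AF.SDens
import Pool.Agent.Helper23.AF.SFam

/-! Block AF-SBASE: for more than half of the base points of `W` the set `E` has in the fibre a family of cells of
hyperbolic points at time `n`, of total volume at least `v1`, where `v1` does not depend on `η`, `n1`.

`v1 = v (prp - r / 2) / 2`. `dens` for `E ∩ (W ×ˢ univ)` and `η`, `ε` gives `D`, `k0`; a large `N` with
`volume (E \ PN N) ≤ ε`; `sel` for `D` and `n0 = n1 + k0 + 2`: time `n` with `volume.real (D ∩ HG n) ≥ prp (volume.real (E ∩ W × univ) - 2 ε) - ε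
≥ prp v μ(W) - 3 ε`. `G = {b ∈ W | v1 ≤ volume.real {z | (b, z) ∈ D ∩ HG n}}`; Fubini: `volume.real (D ∩ HG n) ≤ r v μ(G) + v1 μ(W)`, so
`μ(G) ≥ μ(W) (prp / (2 r) + 1/4) - 3 ε / (r v) > μ(W) / 2` for small `ε` (`prp / r > 1/2`). `fam_ex` in the fibre of `b ∈ G`. -/

set_option autoImplicit false
open MeasureTheory Real Set Filter

namespace Pool.Agent.Helper23.AF

open Pool.Agent.Helper18.UC (nn LL sh clm pt sqo lab rep toT cell)
open Pool.Agent.Helper46.QP (TT Td)

variable {d : ℕ}

/-- the proportion of hyperbolic times is at most `1` -/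
private theorem prp_le_one58 {L B c : ℝ} (hN : Num L B c) : prp L B c ≤ 1 := by
  unfold prp
  have h1 : 0 < Real.log L - Real.log (KL L B) := by linarith [hN.hc, hN.hc2]
  rw [div_le_one h1]
  linarith [hN.hc2]

private theorem fib58 (H : Set (Td d × TT)) (θ : Td d) : Prod.mk θ ⁻¹' H = {z | (θ, z) ∈ H} := rfl

/-- a lower bound of the measure from the fibres -/
private theorem low58 {E : Set (Td d × TT)} (hE : MeasurableSet E) {W : Set (Td d)} (hW : MeasurableSet W) {v : ℝ}
    (hWv : ∀ θ ∈ W, v ≤ volume.real {z | (θ, z) ∈ E}) :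
    v * volume.real W ≤ volume.real (E ∩ (W ×ˢ univ)) := by
  have hE0 : MeasurableSet (E ∩ (W ×ˢ univ)) := hE.inter (hW.prod MeasurableSet.univ)
  rcases le_total v 0 with hv | hv
  · exact (mul_nonpos_of_nonpos_of_nonneg hv measureReal_nonneg).trans measureReal_nonneg
  have h1 : ENNReal.ofReal v * volume W ≤ volume (E ∩ (W ×ˢ univ)) := by
    rw [Measure.volume_eq_prod, Measure.prod_apply hE0]
    calc ENNReal.ofReal v * volume W = ∫⁻ _ in W, ENNReal.ofReal v := by
          rw [setLIntegral_const]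
      _ ≤ ∫⁻ θ in W, volume (Prod.mk θ ⁻¹' (E ∩ (W ×ˢ univ))) := by
          refine setLIntegral_mono' hW fun θ hθ => ?_
          have h2 : Prod.mk θ ⁻¹' (E ∩ (W ×ˢ univ)) = {z | (θ, z) ∈ E} := by
            ext z
            simp [hθ]
          rw [h2]
          exact (ENNReal.ofReal_le_ofReal (hWv θ hθ)).trans ENNReal.ofReal_toReal_le
      _ ≤ ∫⁻ θ, volume (Prod.mk θ ⁻¹' (E ∩ (W ×ˢ univ))) := setLIntegral_le_lintegral _ _
  have h3 := ENNReal.toReal_mono (measure_ne_top _ _) h1
  rw [ENNReal.toReal_mul, ENNReal.toReal_ofReal hv] at h3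
  exact h3

/-- an upper bound of the measure from the fibres -/
private theorem upp58 {H : Set (Td d × TT)} (hH : MeasurableSet H) {W G : Set (Td d)} (hW : MeasurableSet W)
    (hG : MeasurableSet G) {u v1 : ℝ} (hu : 0 ≤ u) (hv1 : 0 ≤ v1) (hout : ∀ p ∈ H, p.1 ∈ W)
    (h1 : ∀ θ ∈ W, volume.real {z | (θ, z) ∈ H} ≤ u) (h2 : ∀ θ ∈ W, θ ∉ G → volume.real {z | (θ, z) ∈ H} ≤ v1) :
    volume.real H ≤ u * volume.real G + v1 * volume.real W := by
  have h3 : volume H ≤ ENNReal.ofReal u * volume G + ENNReal.ofReal v1 * volume W := by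
    rw [Measure.volume_eq_prod, Measure.prod_apply hH]
    calc ∫⁻ θ, volume (Prod.mk θ ⁻¹' H) ≤
        ∫⁻ θ, (G.indicator (fun _ => ENNReal.ofReal u) θ + W.indicator (fun _ => ENNReal.ofReal v1) θ) := by
          refine lintegral_mono fun θ => ?_
          rw [fib58]
          by_cases hθ : θ ∈ W
          · by_cases hg : θ ∈ G
            · rw [indicator_of_mem hg]
              refine le_trans ?_ (le_add_right le_rfl)
              rw [ENNReal.le_ofReal_iff_toReal_le (measure_ne_top _ _) hu]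
              exact h1 θ hθ
            · rw [indicator_of_notMem hg, indicator_of_mem hθ, zero_add,
                ENNReal.le_ofReal_iff_toReal_le (measure_ne_top _ _) hv1]
              exact h2 θ hθ hg
          · have h4 : {z | (θ, z) ∈ H} = ∅ := by
              rw [eq_empty_iff_forall_notMem]
              intro z hz
              exact hθ (hout _ hz)
            rw [h4, measure_empty]
            exact zero_le
      _ = ENNReal.ofReal u * volume G + ENNReal.ofReal v1 * volume W := by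
          rw [lintegral_add_left (measurable_const.indicator hG), lintegral_indicator hG, lintegral_indicator hW,
            setLIntegral_const, setLIntegral_const]
  have h4 := ENNReal.toReal_mono (by finiteness) h3
  rw [ENNReal.toReal_add (by finiteness) (by finiteness), ENNReal.toReal_mul, ENNReal.toReal_mul,
    ENNReal.toReal_ofReal hu, ENNReal.toReal_ofReal hv1] at h4
  exact h4

theorem base {α : Td d} {f : Td d → ℝ × ℝ} (hf : Measurable f) {L B c : ℝ} (hA : ∀ θ, LL (f θ).1 ≤ L) (hN : Num L B c)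
    {E : Set (Td d × TT)} (hE : MeasurableSet E)
    (hP : Tendsto (fun N : ℕ => volume (E \ PN α f c N)) atTop (nhds 0))
    {W : Set (Td d)} (hW : MeasurableSet W) (hWp : volume W ≠ 0) {v r : ℝ} (hv : 0 < v) (hr1 : 1 ≤ r)
    (hr : r < 2 * prp L B c)
    (hWv : ∀ θ ∈ W, v ≤ volume.real {z | (θ, z) ∈ E} ∧ volume.real {z | (θ, z) ∈ E} ≤ r * v)
    {η : ℝ} (hη : 0 < η) (n1 : ℕ) :
    ∃ n : ℕ, n1 ≤ n ∧ ∃ G ⊆ W, MeasurableSet G ∧ volume.real W / 2 < volume.real G ∧
      ∀ θ ∈ G, ∃ 𝒬 : Set (Set TT), FamS (sq α f θ) L B n {z | (θ, z) ∈ E} η 𝒬 ∧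
        v * (prp L B c - r / 2) / 2 ≤ volume.real (⋃₀ 𝒬) := by
  have hp1 := prp_le_one58 hN
  have hp2 := hN.half
  set p := prp L B c with hp
  have ha : 0 < volume.real W := by
    rw [Measure.real]
    exact ENNReal.toReal_pos hWp (measure_ne_top _ _)
  set a := volume.real W with hadef
  have hpr : 0 < p - r / 2 := by linarith
  set v1 := v * (p - r / 2) / 2 with hv1
  have hv1p : 0 < v1 := by positivity
  obtain ⟨ε, hε, hε2⟩ : ∃ ε : ℝ, 0 < ε ∧ 3 * ε < v * a * (p / 2 - r / 4) := by
    refine ⟨v * a * (p / 2 - r / 4) / 6, ?_, ?_⟩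
    · have : 0 < p / 2 - r / 4 := by linarith
      positivity
    · have : 0 < v * a * (p / 2 - r / 4) := by
        have : 0 < p / 2 - r / 4 := by linarith
        positivity
      linarith
  have hE0 : MeasurableSet (E ∩ (W ×ˢ univ)) := hE.inter (hW.prod MeasurableSet.univ)
  set E0 := E ∩ (W ×ˢ univ) with hE0def
  obtain ⟨D, hDE, hD, hDv, k0, hk0⟩ := dens hE0 hη hε
  -- the time `N`
  obtain ⟨N, hN1, hN2, hN3⟩ : ∃ N : ℕ, 1 ≤ N ∧ volume (E \ PN α f c N) ≤ ENNReal.ofReal ε ∧
      ((n1 + k0 + 2 : ℕ) + 1 : ℝ) / N ≤ ε := by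
    have e1 : ∀ᶠ N : ℕ in atTop, volume (E \ PN α f c N) < ENNReal.ofReal ε :=
      hP.eventually_lt_const (by simpa using hε)
    have e2 : Tendsto (fun N : ℕ => ((n1 + k0 + 2 : ℕ) + 1 : ℝ) / N) atTop (nhds 0) :=
      tendsto_const_div_atTop_nhds_zero_nat _
    have e3 := e2.eventually_lt_const hε
    obtain ⟨N, h1, h2, h3⟩ := (e1.and (e3.and (eventually_ge_atTop 1))).exists
    exact ⟨N, h3, h1.le, h2.le⟩
  obtain ⟨n, hn, hsel⟩ := sel (W := D) hf hA hN hD hN1 (n1 + k0 + 2)
  rw [← hp] at hsel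
  have hHm : MeasurableSet (D ∩ HG α f L B n) := hD.inter (meas_HG hf L B n)
  set H := D ∩ HG α f L B n with hH
  -- lower bound
  have hlow' : p * (v * a) - 3 * ε ≤ volume.real H := by
    have h1 : v * a ≤ volume.real E0 := low58 hE hW fun θ hθ => (hWv θ hθ).1
    have h2 : volume.real E0 ≤ volume.real (D ∩ PN α f c N) + 2 * ε := by
      have h3 : E0 ⊆ (D ∩ PN α f c N) ∪ ((E0 \ D) ∪ (E \ PN α f c N)) := by
        intro q hq
        by_cases h4 : q ∈ D
        · by_cases h5 : q ∈ PN α f c N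
          · exact Or.inl ⟨h4, h5⟩
          · exact Or.inr (Or.inr ⟨hq.1, h5⟩)
        · exact Or.inr (Or.inl ⟨hq, h4⟩)
      have h4 : volume.real (E0 \ D) ≤ ε := by
        rw [Measure.real]
        exact ENNReal.toReal_le_of_le_ofReal hε.le hDv
      have h5 : volume.real (E \ PN α f c N) ≤ ε := by
        rw [Measure.real]
        exact ENNReal.toReal_le_of_le_ofReal hε.le hN2
      have h6 := measureReal_mono (μ := (volume : Measure (Td d × TT))) h3
      have h7 := measureReal_union_le (μ := (volume : Measure (Td d × TT))) (D ∩ PN α f c N)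
        ((E0 \ D) ∪ (E \ PN α f c N))
      have h8 := measureReal_union_le (μ := (volume : Measure (Td d × TT))) (E0 \ D) (E \ PN α f c N)
      linarith
    have h3 : p * (v * a) ≤ p * volume.real (D ∩ PN α f c N) + 2 * ε := by
      have h4 : p * (v * a) ≤ p * (volume.real (D ∩ PN α f c N) + 2 * ε) :=
        mul_le_mul_of_nonneg_left (h1.trans h2) (by linarith)
      have h5 : p * (2 * ε) ≤ 1 * (2 * ε) := mul_le_mul_of_nonneg_right hp1 (by linarith)
      linarith
    linarith
  -- the base points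
  have hgm : Measurable fun θ : Td d => volume.real {z | (θ, z) ∈ H} := by
    have h1 : Measurable fun θ : Td d => volume (Prod.mk θ ⁻¹' H) := measurable_measure_prodMk_left hHm
    exact h1.ennreal_toReal
  set G : Set (Td d) := W ∩ {θ | v1 ≤ volume.real {z | (θ, z) ∈ H}} with hG
  have hGm : MeasurableSet G := hW.inter (measurableSet_le measurable_const hgm)
  have hout : ∀ q ∈ H, q.1 ∈ W := fun q hq => (hDE hq.1).2.1
  have hHE : ∀ θ, {z | (θ, z) ∈ H} ⊆ {z | (θ, z) ∈ E} := fun θ z hz => (hDE hz.1).1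
  have hupp : volume.real H ≤ r * v * volume.real G + v1 * a := by
    refine upp58 hHm hW hGm (by positivity) hv1p.le hout ?_ ?_
    · intro θ hθ
      exact (measureReal_mono (hHE θ)).trans (hWv θ hθ).2
    · intro θ hθ hg
      by_contra hcon
      push Not at hcon
      exact hg ⟨hθ, hcon.le⟩
  refine ⟨n, by omega, G, inter_subset_left, hGm, ?_, ?_⟩
  · have h1 : r * v * (a / 2) < r * v * volume.real G := by
      have h2 : v1 * a = v * a * (p / 2 - r / 4) := by rw [hv1]; ring
      have h3 : p * (v * a) = v * a * (p / 2 - r / 4) + v * a * (p / 2 - r / 4) + r * v * (a / 2) := by ring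
      linarith
    exact lt_of_mul_lt_mul_left h1 (by positivity)
  · intro θ hθ
    obtain ⟨𝒬, h1, h2⟩ := fam_ex (A := sq α f θ) (L := L) (B := B) (fun j => hA _) hN.hB
      (n := n) (k0 := k0) (by omega) (E := {z | (θ, z) ∈ E}) (W := {z | (θ, z) ∈ H}) (η := η) (by
        intro z hz
        refine ⟨hz.2, fun k hk => ?_⟩
        have h3 := hk0 k hk (θ, z) hz.1
        have h4 : {z' | ((θ, z).1, z') ∈ E0} = {z' | (θ, z') ∈ E} := by
          ext z'
          simp only [hE0def, mem_inter_iff, mem_ofPred_eq, mem_prod, mem_univ, and_true]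
          exact ⟨fun h => h.1, fun h => ⟨h, hθ.1⟩⟩
        rw [h4] at h3
        exact h3)
    refine ⟨𝒬, h1, ?_⟩
    exact hθ.2.trans (measureReal_mono h2)

end Pool.Agent.Helper23.AF
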