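import Pool.Agent.Helper23.AF.SNL

/-! Block AF-SDIR (port of `Helper18/UC/Dir.lean` to sequences): directions and curves at a hyperbolic time. -/

set_option autoImplicit false
open MeasureTheory Real Set

namespace Pool.Agent.Helper23.AF

open Pool.Agent.Helper18.UC (nn LL sh clm pt)

private lemma dir17_succ (A : ℕ → ℝ × ℝ) (n : ℕ) (q : ℝ × ℝ) :
    pM A (n + 1) q = Pool.Agent.Helper18.UC.A (A n).1 (po A n q) * pM A n q := by rw [pM]

private lemma dir17_row (A : ℕ → ℝ × ℝ) (n : ℕ) (q : ℝ × ℝ) (j : Fin 2) :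
    pM A (n + 1) q 1 j = pM A n q 0 j := by
  rw [dir17_succ, Matrix.mul_apply, Fin.sum_univ_two]
  simp [Pool.Agent.Helper18.UC.A]

private lemma dir17_L {A : ℕ → ℝ × ℝ} {L : ℝ} (hA : Bd A L) : 4 ≤ L :=
  (Pool.Agent.Helper18.UC.LL_ge (A 0).1).trans (hA 0)

private lemma dir17_KL {A : ℕ → ℝ × ℝ} {L B : ℝ} (hA : Bd A L) (hB : 100 ≤ B) : 800 ≤ KL L B := by
  have h1 : (2 : ℝ) ≤ Real.sqrt L := by
    have : (2 : ℝ) = Real.sqrt 4 := by
      rw [show (4 : ℝ) = 2 ^ 2 by norm_num, Real.sqrt_sq (by norm_num)]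
    rw [this]
    exact Real.sqrt_le_sqrt (dir17_L hA)
  unfold KL
  nlinarith

theorem exists_gd {A : ℕ → ℝ × ℝ} {L B : ℝ} (hA : Bd A L) (hB : 100 ≤ B) {n : ℕ} (hn : 1 ≤ n) {p : ℝ × ℝ}
    (hp : Hyp A L B n p) : ∃ (k : Fin 2) (m : ℝ), Good A L B n p k m := by
  obtain ⟨n', rfl⟩ : ∃ n', n = n' + 1 := ⟨n - 1, by omega⟩
  have hB0 : 0 < B := by linarith
  have hK := dir17_KL hA hB
  have hK0 : 0 < KL L B := by linarith
  set Λ := nn (pM A (n' + 1) p) with hΛ
  set K := KL L B with hKdef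
  have hΛ0 : 0 ≤ Λ := Pool.Agent.Helper18.UC.nn_nonneg _
  have h1 : nn (pM A n' p) ≤ Λ / K := by
    have h := hp n' (by omega)
    rw [show n' + 1 - n' = 1 by omega, pow_one] at h
    rw [le_div_iff₀ hK0]
    linarith
  have hΛK : Λ / K ≤ Λ / 800 := div_le_div_of_nonneg_left hΛ0 (by norm_num) hK
  -- the first row is large
  have hrow : (799 / 800) * Λ ≤ |pM A (n' + 1) p 0 0| + |pM A (n' + 1) p 0 1| := by
    have h2 : |pM A (n' + 1) p 1 0| + |pM A (n' + 1) p 1 1| ≤ nn (pM A n' p) := by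
      rw [dir17_row, dir17_row]
      unfold nn
      linarith [abs_nonneg (pM A n' p 1 0), abs_nonneg (pM A n' p 1 1)]
    have h3 : Λ = |pM A (n' + 1) p 0 0| + |pM A (n' + 1) p 0 1| + |pM A (n' + 1) p 1 0| +
        |pM A (n' + 1) p 1 1| := rfl
    linarith
  have hk : ∃ k : Fin 2, (49 / 100) * Λ ≤ |pM A (n' + 1) p 0 k| := by
    by_contra hcon
    push Not at hcon
    have ha := hcon 0
    have hb := hcon 1
    linarith
  obtain ⟨k, hk⟩ := hk
  have hm0 : 0 ≤ |pM A (n' + 1) p 0 k| := abs_nonneg _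
  refine ⟨k, pM A (n' + 1) p 0 k, hk, Pool.Agent.Helper18.UC.abs_entry_le _ _ _, ?_⟩
  intro q hq
  have hnl := near_lin hA (by linarith : 1 ≤ B) hp hq
  constructor
  · have h2 := hnl (n' + 1) le_rfl
    rw [Nat.sub_self, Nat.mul_zero, pow_zero, one_mul] at h2
    have h3 : |pM A (n' + 1) q 0 k - pM A (n' + 1) p 0 k| ≤
        nn (pM A (n' + 1) q - pM A (n' + 1) p) := by
      have := Pool.Agent.Helper18.UC.abs_entry_le (pM A (n' + 1) q - pM A (n' + 1) p) 0 k
      rwa [Matrix.sub_apply] at this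
    refine h3.trans (h2.trans ?_)
    rw [← hΛ, div_mul_eq_mul_div]
    exact div_le_div_of_nonneg_right (by linarith) hB0.le
  · have h2 := hnl n' (by omega)
    rw [show 2 * (n' + 1 - n') = 2 by omega, ← hΛ] at h2
    have h3 : |pM A n' q 0 k| ≤ |pM A n' p 0 k| + nn (pM A n' q - pM A n' p) := by
      have h4 := Pool.Agent.Helper18.UC.abs_entry_le (pM A n' q - pM A n' p) 0 k
      rw [Matrix.sub_apply] at h4
      have h5 : |pM A n' q 0 k| ≤ |pM A n' p 0 k| + |pM A n' q 0 k - pM A n' p 0 k| := by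
        calc |pM A n' q 0 k| = |pM A n' p 0 k + (pM A n' q 0 k - pM A n' p 0 k)| := by
              congr 1; ring
          _ ≤ _ := abs_add_le _ _
      linarith
    have h6 : |pM A n' p 0 k| ≤ Λ / K := (Pool.Agent.Helper18.UC.abs_entry_le _ _ _).trans h1
    have h7 : nn (pM A n' q - pM A n' p) ≤ Λ / K := by
      rw [le_div_iff₀ hK0]
      have h8 : Λ / B ≤ Λ := div_le_self hΛ0 (by linarith)
      have h9 : nn (pM A n' q - pM A n' p) * K ≤ K ^ 2 * nn (pM A n' q - pM A n' p) := by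
        have h11 := Pool.Agent.Helper18.UC.nn_nonneg (pM A n' q - pM A n' p)
        have h12 : K ≤ K ^ 2 := by nlinarith
        calc nn (pM A n' q - pM A n' p) * K ≤ nn (pM A n' q - pM A n' p) * K ^ 2 :=
              mul_le_mul_of_nonneg_left h12 h11
          _ = _ := mul_comm _ _
      exact h9.trans (h2.trans h8)
    rw [dir17_row]
    have h10 : |pM A n' q 0 k| ≤ 2 * Λ / K := by
      have : 2 * Λ / K = Λ / K + Λ / K := by ring
      linarith
    refine h10.trans ?_
    rw [div_mul_eq_mul_div]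
    exact div_le_div_of_nonneg_right (by linarith) hK0.le

/-- derivative along a line -/
theorem hasDerivAt_ln (A : ℕ → ℝ × ℝ) (n : ℕ) (k : Fin 2) (t s : ℝ) :
    HasDerivAt (fun u : ℝ => (po A n (pt k t u)).1) (pM A n (pt k t s) 0 k) s ∧
    HasDerivAt (fun u : ℝ => (po A n (pt k t u)).2) (pM A n (pt k t s) 1 k) s := by
  have hpt : HasDerivAt (fun u : ℝ => pt k t u) (if k = 0 then ((1 : ℝ), (0 : ℝ)) else (0, 1)) s := by
    unfold pt
    by_cases hk : k = 0
    · simp only [hk, if_true]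
      exact (hasDerivAt_id s).prodMk (hasDerivAt_const s t)
    · simp only [hk, if_false]
      exact (hasDerivAt_const s t).prodMk (hasDerivAt_id s)
  have h1 := (hasFDerivAt_po A n (pt k t s)).comp_hasDerivAt s hpt
  have h2 : clm (pM A n (pt k t s)) (if k = 0 then ((1 : ℝ), (0 : ℝ)) else (0, 1)) =
      (pM A n (pt k t s) 0 k, pM A n (pt k t s) 1 k) := by
    rw [Pool.Agent.Helper18.UC.clm_apply]
    fin_cases k <;> simp
  rw [h2] at h1
  constructor
  · exact (ContinuousLinearMap.fst ℝ ℝ ℝ).hasFDerivAt.comp_hasDerivAt s h1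
  · exact (ContinuousLinearMap.snd ℝ ℝ ℝ).hasFDerivAt.comp_hasDerivAt s h1

private lemma dir17_convex (k : Fin 2) (t r : ℝ) (p : ℝ × ℝ) :
    Convex ℝ {u : ℝ | dist (pt k t u) p ≤ r} := by
  intro u hu v hv x y hx hy hxy
  have h1 : pt k t (x • u + y • v) = x • pt k t u + y • pt k t v := by
    have ht : t = x * t + y * t := by rw [← add_mul, hxy, one_mul]
    unfold pt
    split_ifs
    · ext
      · simp
      · simpa using ht
    · ext
      · simpa using ht
      · simp
  have h2 := convex_closedBall p r (Metric.mem_closedBall.2 hu) (Metric.mem_closedBall.2 hv) hx hy hxy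
  rw [← h1] at h2
  exact Metric.mem_closedBall.1 h2

theorem gd_curve {A : ℕ → ℝ × ℝ} {L B : ℝ} (hA : Bd A L) (hB : 100 ≤ B) {n : ℕ} {p : ℝ × ℝ} {k : Fin 2} {m : ℝ}
    (hG : Good A L B n p k m) {t s s' : ℝ} (hs : dist (pt k t s) p ≤ B / nn (pM A n p))
    (hs' : dist (pt k t s') p ≤ B / nn (pM A n p)) :
    |(po A n (pt k t s)).1 - (po A n (pt k t s')).1 - m * (s - s')| ≤ (3 / B) * |m| * |s - s'| ∧
    |(po A n (pt k t s)).2 - (po A n (pt k t s')).2| ≤ (5 / KL L B) * |m| * |s - s'| := by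
  have hconv := dir17_convex k t (B / nn (pM A n p)) p
  constructor
  · have h1 := hconv.norm_image_sub_le_of_norm_hasDerivWithin_le
      (f := fun u : ℝ => (po A n (pt k t u)).1 - m * u)
      (f' := fun u : ℝ => pM A n (pt k t u) 0 k - m) (C := (3 / B) * |m|) (x := s') (y := s)
      (fun u _ => by
        have h2 := (hasDerivAt_ln A n k t u).1
        have h3 : HasDerivAt (fun u : ℝ => m * u) m u := by
          simpa using (hasDerivAt_id u).const_mul m
        exact (h2.sub h3).hasDerivWithinAt)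
      (fun u hu => by
        rw [Real.norm_eq_abs]
        exact (hG.2.2 _ hu).1) hs' hs
    rw [Real.norm_eq_abs, Real.norm_eq_abs] at h1
    refine le_of_eq_of_le ?_ h1
    congr 1
    ring
  · have h1 := hconv.norm_image_sub_le_of_norm_hasDerivWithin_le
      (f := fun u : ℝ => (po A n (pt k t u)).2)
      (f' := fun u : ℝ => pM A n (pt k t u) 1 k) (C := (5 / KL L B) * |m|) (x := s') (y := s)
      (fun u _ => (hasDerivAt_ln A n k t u).2.hasDerivWithinAt)
      (fun u hu => by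
        rw [Real.norm_eq_abs]
        exact (hG.2.2 _ hu).2) hs' hs
    rw [Real.norm_eq_abs, Real.norm_eq_abs] at h1
    exact h1

end Pool.Agent.Helper23.AF
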