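import Pool.Agent.Helper23.AF.SExist

/-! Block AF-SLOW (port of `Helper18/UC/MeasLow.lean`, only `j = 0`, to sequences): lower bound for the measure of the
hits. -/

set_option autoImplicit false
open MeasureTheory Real Set

namespace Pool.Agent.Helper23.AF

open Pool.Agent.Helper18.UC (nn LL sh clm pt sqo lab)

private theorem ml_sqo_meas_12 (c : ℝ × ℝ) (s : ℝ) : MeasurableSet (sqo c s) :=
  measurableSet_Ico.prod measurableSet_Ico

private theorem ml_sh_cont_12 (u w : ℤ) : Continuous (fun q : ℝ × ℝ => sh q u w) := by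
  unfold sh
  fun_prop

theorem meas_hit (A : ℕ → ℝ × ℝ) (N : ℕ) (c : ℝ × ℝ) (s : ℝ) (c' : ℝ × ℝ) (s' : ℝ) : MeasurableSet (Hit A N c s c' s') := by
  have h : Hit A N c s c' s' = sqo c s ∩
      ⋃ u : ℤ, ⋃ w : ℤ, (fun q => sh (Prod.swap (po A N q)) u w) ⁻¹' sqo c' s' := by
    ext q
    simp only [Hit, mem_ofPred_eq, mem_inter_iff, mem_iUnion, mem_preimage]
  rw [h]
  refine (ml_sqo_meas_12 c s).inter (MeasurableSet.iUnion fun u => MeasurableSet.iUnion fun w => ?_)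
  exact ((ml_sh_cont_12 u w).comp (continuous_swap.comp (po_cont A N))).measurable
    (ml_sqo_meas_12 c' s')

private theorem ml_dist_sqo_12 {c p q : ℝ × ℝ} {s : ℝ} (hq : q ∈ sqo c s) (hp : p ∈ sqo c s) :
    dist q p ≤ s := by
  obtain ⟨⟨h1, h2⟩, h3, h4⟩ := hq
  obtain ⟨⟨h5, h6⟩, h7, h8⟩ := hp
  rw [Prod.dist_eq, Real.dist_eq, Real.dist_eq]
  refine max_le ?_ ?_ <;> rw [abs_le] <;> constructor <;> linarith

private theorem ml_near_12 {A : ℕ → ℝ × ℝ} {L B : ℝ} (hA : Bd A L) (hB : 100 ≤ B) {n : ℕ} {p : ℝ × ℝ}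
    (hp : Hyp A L B n p) {c : ℝ × ℝ} {s : ℝ} (hs2 : s ≤ B / nn (pM A n p)) (hpc : p ∈ sqo c s)
    {q : ℝ × ℝ} (hq : q ∈ sqo c s) : nn (pM A n q) ≤ (1 + 1 / B) * nn (pM A n p) := by
  have h1 := near_lin hA (by linarith : 1 ≤ B) hp ((ml_dist_sqo_12 hq hpc).trans hs2) n le_rfl
  rw [Nat.sub_self, Nat.mul_zero, pow_zero, one_mul] at h1
  have h2 := Pool.Agent.Helper18.UC.nn_sub_le (pM A n q) (pM A n p)
  have h3 : (1 + 1 / B) * nn (pM A n p) = nn (pM A n p) + nn (pM A n p) / B := by ring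
  linarith

private theorem ml_deriv_12 {A : ℕ → ℝ × ℝ} {L B : ℝ} (hA : Bd A L) (hB : 100 ≤ B) {n n' : ℕ}
    {p p' : ℝ × ℝ} (hp : Hyp A L B n p) (hp' : Hyp (rv A (n + n')) L B n' p')
    {c c' : ℝ × ℝ} {s s' : ℝ} (hs2 : s ≤ B / nn (pM A n p))
    (hpc : p ∈ sqo c s) (hs2' : s' ≤ B / nn (pM (rv A (n + n')) n' p'))
    (hpc' : p' ∈ sqo c' s') {q : ℝ × ℝ}
    (hq : q ∈ Hit A (n + n') c s c' s') (i l : Fin 2) :
    |pM A (n + n') q i l| ≤
      (1 + 1 / B) ^ 2 * (nn (pM A n p) * nn (pM (rv A (n + n')) n' p')) := by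
  obtain ⟨hqs, u, w, hq'⟩ := hq
  have h1 := ml_near_12 hA hB hp hs2 hpc hqs
  have h2 := ml_near_12 (Bd_rv hA (n + n')) hB hp' hs2' hpc' hq'
  rw [pM_sh, pnn_rev] at h2
  have hB0 : 0 < B := by linarith
  calc |pM A (n + n') q i l| ≤ nn (pM A (n + n') q) := Pool.Agent.Helper18.UC.abs_entry_le _ _ _
    _ ≤ nn (pM (shA A n) n' (po A n q)) * nn (pM A n q) := by
        rw [pM_add]
        exact Pool.Agent.Helper18.UC.nn_mul _ _
    _ ≤ ((1 + 1 / B) * nn (pM (rv A (n + n')) n' p')) * ((1 + 1 / B) * nn (pM A n p)) := by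
        refine mul_le_mul h2 h1 (Pool.Agent.Helper18.UC.nn_nonneg _) ?_
        have := Pool.Agent.Helper18.UC.nn_nonneg (pM (rv A (n + n')) n' p')
        positivity
    _ = _ := by ring

/-- the label of the swapped image of a point of a line -/
private noncomputable def mlh_12 (A : ℕ → ℝ × ℝ) (N : ℕ) (k k' : Fin 2) (t : ℝ) (σ : ℝ) : ℝ :=
  lab k' (Prod.swap (po A N (pt k t σ)))

private theorem mlh_deriv_12 (A : ℕ → ℝ × ℝ) (N : ℕ) (k k' : Fin 2) (t σ : ℝ) :
    HasDerivAt (mlh_12 A N k k' t) (pM A N (pt k t σ) (if k' = 0 then 0 else 1) k) σ := by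
  have h := hasDerivAt_ln A N k t σ
  by_cases hk : k' = 0
  · have e : mlh_12 A N k k' t = fun u : ℝ => (po A N (pt k t u)).1 := by
      funext u
      simp [mlh_12, lab, hk]
    rw [e, if_pos hk]
    exact h.1
  · have e : mlh_12 A N k k' t = fun u : ℝ => (po A N (pt k t u)).2 := by
      funext u
      simp [mlh_12, lab, hk]
    rw [e, if_neg hk]
    exact h.2

private theorem ml_pt_cont_12 (k : Fin 2) (t : ℝ) : Continuous (fun σ : ℝ => pt k t σ) := by
  unfold pt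
  split_ifs <;> fun_prop

private theorem mlh_cont_12 (A : ℕ → ℝ × ℝ) (N : ℕ) (k k' : Fin 2) (t : ℝ) :
    Continuous (mlh_12 A N k k' t) :=
  continuous_iff_continuousAt.2 fun σ => (mlh_deriv_12 A N k k' t σ).continuousAt

private theorem back_12 (A : ℕ → ℝ × ℝ) (n n' : ℕ) (q : ℝ × ℝ) :
    po (shA A n) n' (Prod.swap (po (rv A (n + n')) n' q)) = Prod.swap q := by
  have h := po_rev (rv A (n + n')) 0 n' q
  rw [Nat.zero_add] at h
  have h0 : po (rv A (n + n')) 0 q = q := rfl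
  rw [h0] at h
  rw [← h]
  refine po_congr (fun j hj => ?_) _
  unfold shA rv
  congr 1
  omega

private theorem ml_slice_12 {A : ℕ → ℝ × ℝ} {L B : ℝ} (hA : Bd A L) (hB : 100 ≤ B) {n n' : ℕ}
    {p p' : ℝ × ℝ} (hp : Hyp A L B n p) (hp' : Hyp (rv A (n + n')) L B n' p')
    {k k' : Fin 2} {m m' : ℝ} (hG : Good A L B n p k m)
    (hG' : Good (rv A (n + n')) L B n' p' k' m')
    {c c' : ℝ × ℝ} {s s' : ℝ} (hs1 : B / (2 * nn (pM A n p)) ≤ s) (hs2 : s ≤ B / nn (pM A n p))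
    (hpc : p ∈ sqo c s) (hs1' : B / (2 * nn (pM (rv A (n + n')) n' p')) ≤ s')
    (hs2' : s' ≤ B / nn (pM (rv A (n + n')) n' p'))
    (hpc' : p' ∈ sqo c' s') (hs1'' : s' < 1) {t : ℝ}
    (ht : t ∈ Ioo (lab k c) (lab k c + s)) :
    ENNReal.ofReal s' ≤
      ENNReal.ofReal ((1 + 1 / B) ^ 2 * (nn (pM A n p) * nn (pM (rv A (n + n')) n' p'))) *
        volume {σ : ℝ | pt k t σ ∈ Hit A (n + n') c s c' s'} := by
  set C := (1 + 1 / B) ^ 2 * (nn (pM A n p) * nn (pM (rv A (n + n')) n' p')) with hC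
  set S : Set ℝ := {σ : ℝ | pt k t σ ∈ Hit A (n + n') c s c' s'} with hS
  have hSm : MeasurableSet S :=
    (ml_pt_cont_12 k t).measurable (meas_hit A (n + n') c s c' s')
  let T : ℤ → Set ℝ := fun i =>
    S ∩ (mlh_12 A (n + n') k k' t) ⁻¹' Ico (lab k' c' - i) (lab k' c' + s' - i)
  have hTm : ∀ i, MeasurableSet (T i) := fun i =>
    hSm.inter ((mlh_cont_12 A (n + n') k k' t).measurable measurableSet_Ico)
  have hTd : Pairwise (Function.onFun Disjoint T) := by
    intro i i' hii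
    refine Set.disjoint_left.2 ?_
    rintro σ ⟨-, h1⟩ ⟨-, h2⟩
    rw [mem_preimage, mem_Ico] at h1 h2
    apply hii
    have h3 : |((i : ℝ) - i')| < 1 := by
      rw [abs_lt]
      constructor <;> linarith [h1.1, h1.2, h2.1, h2.2]
    have h4 : |i - i'| < 1 := by
      have : ((|i - i'| : ℤ) : ℝ) < 1 := by
        push_cast
        exact h3
      exact_mod_cast this
    have h5 := Int.abs_lt_one_iff.1 h4
    omega
  have hcov : Ioo (lab k' c') (lab k' c' + s') ⊆
      ⋃ i : ℤ, (fun σ => mlh_12 A (n + n') k k' t σ + i) '' T i := by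
    intro t' ht'
    obtain ⟨σ, σ', hσ, hσ', u, w, huw⟩ :=
      cross_ex hA hB hG hG' hs1 hs2 hpc hs1' hs2' hpc' ht ht'
    have h1 : po A (n + n') (pt k t σ) =
        sh (Prod.swap (pt k' t' σ')) (u + n' * (u - w)) (w + n' * (u - w)) := by
      rw [po_add, huw, po_sh, back_12]
    set u' : ℤ := u + n' * (u - w) with hu'
    set w' : ℤ := w + n' * (u - w) with hw'
    have h2 : Prod.swap (po A (n + n') (pt k t σ)) = sh (pt k' t' σ') w' u' := by
      rw [h1]
      simp [sh, Prod.swap]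
    have h3 : sh (Prod.swap (po A (n + n') (pt k t σ))) (-w') (-u') = pt k' t' σ' := by
      rw [h2]
      simp [sh]
    have h4 : σ ∈ S := ⟨hσ, -w', -u', by rw [h3]; exact hσ'⟩
    have h5 : mlh_12 A (n + n') k k' t σ = t' + ((if k' = 0 then u' else w' : ℤ) : ℝ) := by
      unfold mlh_12
      rw [h2]
      by_cases hk : k' = 0
      · simp [lab, sh, pt, hk]
      · simp [lab, sh, pt, hk]
    refine mem_iUnion.2 ⟨-(if k' = 0 then u' else w'), σ, ⟨h4, ?_⟩, ?_⟩
    · rw [mem_preimage, mem_Ico, h5]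
      push_cast
      constructor <;> linarith [ht'.1, ht'.2]
    · simp only
      rw [h5]
      push_cast
      ring
  have hbd : ∀ i : ℤ, volume ((fun σ => mlh_12 A (n + n') k k' t σ + i) '' T i) ≤
      ENNReal.ofReal C * volume (T i) := by
    intro i
    have h1 := addHaar_image_le_lintegral_abs_det_fderiv (μ := (volume : Measure ℝ)) (hTm i)
      (f := fun σ => mlh_12 A (n + n') k k' t σ + i)
      (fun σ _ =>
        ((mlh_deriv_12 A (n + n') k k' t σ).add_const (i : ℝ)).hasDerivWithinAt.hasFDerivWithinAt)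
    refine h1.trans ?_
    simp only [ContinuousLinearMap.det_toSpanSingleton]
    rw [← setLIntegral_const]
    refine setLIntegral_mono_ae' (hTm i) (Filter.Eventually.of_forall fun σ hσ => ?_)
    exact ENNReal.ofReal_le_ofReal (ml_deriv_12 hA hB hp hp' hs2 hpc hs2' hpc' hσ.1 _ _)
  calc ENNReal.ofReal s' = volume (Ioo (lab k' c') (lab k' c' + s')) := by
        rw [Real.volume_Ioo]
        congr 1
        ring
    _ ≤ volume (⋃ i : ℤ, (fun σ => mlh_12 A (n + n') k k' t σ + i) '' T i) := measure_mono hcov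
    _ ≤ ∑' i : ℤ, volume ((fun σ => mlh_12 A (n + n') k k' t σ + i) '' T i) :=
        measure_iUnion_le _
    _ ≤ ∑' i : ℤ, ENNReal.ofReal C * volume (T i) := ENNReal.tsum_le_tsum hbd
    _ = ENNReal.ofReal C * volume (⋃ i : ℤ, T i) := by
        rw [ENNReal.tsum_mul_left, measure_iUnion hTd hTm]
    _ ≤ ENNReal.ofReal C * volume S := by
        gcongr
        exact iUnion_subset fun i => inter_subset_left

private theorem ml_fubini_12 (k : Fin 2) {S : Set (ℝ × ℝ)} (hS : MeasurableSet S) :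
    volume S = ∫⁻ t : ℝ, volume {σ : ℝ | pt k t σ ∈ S} := by
  by_cases hk : k = 0
  · have e : ∀ t : ℝ, {σ : ℝ | pt k t σ ∈ S} = (fun x => (x, t)) ⁻¹' S := by
      intro t
      ext σ
      simp [pt, hk]
    simp_rw [e]
    rw [Measure.volume_eq_prod, Measure.prod_apply_symm hS]
  · have e : ∀ t : ℝ, {σ : ℝ | pt k t σ ∈ S} = Prod.mk t ⁻¹' S := by
      intro t
      ext σ
      simp [pt, hk]
    simp_rw [e]
    rw [Measure.volume_eq_prod, Measure.prod_apply hS]

theorem hit_lo {A : ℕ → ℝ × ℝ} {L B : ℝ} (hA : Bd A L) (hB : 100 ≤ B) {n n' : ℕ} {p p' : ℝ × ℝ} (hp : Hyp A L B n p)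
    (hp' : Hyp (rv A (n + n')) L B n' p') {k k' : Fin 2} {m m' : ℝ}
    (hG : Good A L B n p k m) (hG' : Good (rv A (n + n')) L B n' p' k' m')
    {c c' : ℝ × ℝ} {s s' : ℝ} (hs1 : B / (2 * nn (pM A n p)) ≤ s) (hs2 : s ≤ B / nn (pM A n p))
    (hpc : p ∈ sqo c s) (hs1' : B / (2 * nn (pM (rv A (n + n')) n' p')) ≤ s')
    (hs2' : s' ≤ B / nn (pM (rv A (n + n')) n' p')) (hpc' : p' ∈ sqo c' s') (hs1'' : s' < 1) :
    ENNReal.ofReal (s ^ 2 * s' ^ 2 / (2 * B ^ 2)) ≤ volume (Hit A (n + n') c s c' s') := by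
  have hB0 : 0 < B := by linarith
  have hΛ : 0 < nn (pM A n p) := by have := two_le_pnn A n p; linarith
  have hΛ' : 0 < nn (pM (rv A (n + n')) n' p') := by
    have := two_le_pnn (rv A (n + n')) n' p'; linarith
  have hs0 : 0 < s := lt_of_lt_of_le (by positivity) hs1
  have hs0' : 0 < s' := lt_of_lt_of_le (by positivity) hs1'
  set C := (1 + 1 / B) ^ 2 * (nn (pM A n p) * nn (pM (rv A (n + n')) n' p')) with hC
  have hC0 : 0 < C := by positivity
  have h1 : s ^ 2 * s' ^ 2 / (2 * B ^ 2) ≤ s' / C * s := by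
    rw [div_mul_eq_mul_div, div_le_div_iff₀ (by positivity) hC0]
    have h2 : s * nn (pM A n p) ≤ B := by
      rwa [le_div_iff₀ hΛ] at hs2
    have h3 : s' * nn (pM (rv A (n + n')) n' p') ≤ B := by
      rwa [le_div_iff₀ hΛ'] at hs2'
    have h4 : (1 + 1 / B) ^ 2 ≤ 2 := by
      have h5 : 1 / B ≤ 1 / 100 := by
        apply one_div_le_one_div_of_le (by norm_num) hB
      have h6 : 0 ≤ 1 / B := by positivity
      nlinarith
    have h7 : (s * nn (pM A n p)) * (s' * nn (pM (rv A (n + n')) n' p')) ≤ B * B :=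
      mul_le_mul h2 h3 (by positivity) hB0.le
    calc s ^ 2 * s' ^ 2 * C = (s' * s) * ((1 + 1 / B) ^ 2 *
          ((s * nn (pM A n p)) * (s' * nn (pM (rv A (n + n')) n' p')))) := by rw [hC]; ring
      _ ≤ (s' * s) * (2 * (B * B)) := by
          refine mul_le_mul_of_nonneg_left ?_ (by positivity)
          exact mul_le_mul h4 h7 (by positivity) (by norm_num)
      _ = s' * s * (2 * B ^ 2) := by ring
  have h2 : ∀ t ∈ Ioo (lab k c) (lab k c + s), ENNReal.ofReal (s' / C) ≤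
      volume {σ : ℝ | pt k t σ ∈ Hit A (n + n') c s c' s'} := by
    intro t ht
    have h3 := ml_slice_12 hA hB hp hp' hG hG' hs1 hs2 hpc hs1' hs2' hpc' hs1'' ht
    rw [← hC] at h3
    rw [ENNReal.ofReal_div_of_pos hC0]
    refine ENNReal.div_le_of_le_mul ?_
    rw [mul_comm]
    exact h3
  calc ENNReal.ofReal (s ^ 2 * s' ^ 2 / (2 * B ^ 2))
      ≤ ENNReal.ofReal (s' / C * s) := ENNReal.ofReal_le_ofReal h1
    _ = ∫⁻ _ in Ioo (lab k c) (lab k c + s), ENNReal.ofReal (s' / C) := by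
        rw [setLIntegral_const, Real.volume_Ioo, ENNReal.ofReal_mul (by positivity)]
        congr 2
        ring
    _ ≤ ∫⁻ t in Ioo (lab k c) (lab k c + s),
        volume {σ : ℝ | pt k t σ ∈ Hit A (n + n') c s c' s'} := by
        refine setLIntegral_mono_ae' measurableSet_Ioo (Filter.Eventually.of_forall fun t ht => ?_)
        exact h2 t ht
    _ ≤ ∫⁻ t : ℝ, volume {σ : ℝ | pt k t σ ∈ Hit A (n + n') c s c' s'} :=
        setLIntegral_le_lintegral _ _
    _ = volume (Hit A (n + n') c s c' s') :=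
        (ml_fubini_12 k (meas_hit A (n + n') c s c' s')).symm

end Pool.Agent.Helper23.AF
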