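import Pool.Agent.Helper23.AF.SBas

/-! Block AF-SNL (port of `Helper18/UC/FD.lean` (last part) and `Helper18/UC/NL.lean` to sequences): the matrices `pM` are
the derivatives of the plane maps `po`; at a hyperbolic time the map is nearly linear on the square of radius
`B / nn (pM A n p)`. Replace `LL a` by `L` (with `Bd A L`), `KK a B` by `KL L B`, `(F a)^[n] q` by `po A n q`, `M a n q`
by `pM A n q`. -/

set_option autoImplicit false
open MeasureTheory Real Set

namespace Pool.Agent.Helper23.AF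

open Pool.Agent.Helper18.UC (nn LL sh clm)

private lemma h4_po_succ (A : ℕ → ℝ × ℝ) (n : ℕ) (q : ℝ × ℝ) :
    po A (n + 1) q = Fp (A n) (po A n q) := by rw [po]

private lemma h4_pM_zero (A : ℕ → ℝ × ℝ) (q : ℝ × ℝ) : pM A 0 q = 1 := by rw [pM]

private lemma h4_pM_succ (A : ℕ → ℝ × ℝ) (n : ℕ) (q : ℝ × ℝ) :
    pM A (n + 1) q = Pool.Agent.Helper18.UC.A (A n).1 (po A n q) * pM A n q := by rw [pM]

private lemma h4_clm_one : clm 1 = ContinuousLinearMap.id ℝ (ℝ × ℝ) := by
  refine ContinuousLinearMap.ext fun v => ?_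
  rw [Pool.Agent.Helper18.UC.clm_apply]
  simp

private lemma h4_clm_mul (B C : Matrix (Fin 2) (Fin 2) ℝ) : clm (B * C) = (clm B).comp (clm C) := by
  refine ContinuousLinearMap.ext fun v => ?_
  rw [ContinuousLinearMap.comp_apply, Pool.Agent.Helper18.UC.clm_apply, Pool.Agent.Helper18.UC.clm_apply,
    Pool.Agent.Helper18.UC.clm_apply]
  refine Prod.ext ?_ ?_
  · simp only [Matrix.mul_apply, Fin.sum_univ_two]
    ring
  · simp only [Matrix.mul_apply, Fin.sum_univ_two]
    ring

private lemma h4_hasFDerivAt_F (a : ℝ) (q : ℝ × ℝ) :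
    HasFDerivAt (Pool.Agent.Helper18.UC.F a) (clm (Pool.Agent.Helper18.UC.A a q)) q := by
  have h := Pool.Agent.Helper18.UC.hasFDerivAt_iter a 1 q
  have e : Pool.Agent.Helper18.UC.M a 1 q = Pool.Agent.Helper18.UC.A a q := by
    rw [Pool.Agent.Helper18.UC.M_succ, Pool.Agent.Helper18.UC.M_zero, mul_one]
    rfl
  rw [e, Function.iterate_one] at h
  exact h

private lemma h85_hasFDerivAt_Fp (p : ℝ × ℝ) (q : ℝ × ℝ) :
    HasFDerivAt (Fp p) (clm (Pool.Agent.Helper18.UC.A p.1 q)) q := by
  have h := (h4_hasFDerivAt_F p.1 q).add_const (c := ((p.2, 0) : ℝ × ℝ))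
  have e : (fun x => Pool.Agent.Helper18.UC.F p.1 x + ((p.2, 0) : ℝ × ℝ)) = Fp p := by
    funext x
    refine Prod.ext rfl ?_
    show x.1 + 0 = x.1
    rw [add_zero]
  rw [← e]
  exact h

private lemma h4_KL_sq {L : ℝ} (hL : 0 ≤ L) (B : ℝ) : KL L B ^ 2 = 16 * B ^ 2 * L := by
  unfold KL
  rw [mul_pow, Real.sq_sqrt hL]
  ring

theorem hasFDerivAt_po (A : ℕ → ℝ × ℝ) (n : ℕ) (q : ℝ × ℝ) : HasFDerivAt (po A n) (clm (pM A n q)) q := by
  induction n with
  | zero =>
    rw [h4_pM_zero, h4_clm_one]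
    have e : po A 0 = fun q => q := by
      funext x
      rw [po]
    rw [e]
    exact hasFDerivAt_id q
  | succ n ih =>
    rw [h4_pM_succ, h4_clm_mul]
    have e : po A (n + 1) = Fp (A n) ∘ po A n := by
      funext x
      rw [h4_po_succ]
      rfl
    rw [e]
    exact (h85_hasFDerivAt_Fp (A n) (po A n q)).comp q ih

theorem po_dist_le (A : ℕ → ℝ × ℝ) (n : ℕ) {s : Set (ℝ × ℝ)} (hs : Convex ℝ s) {C : ℝ}
    (hC : ∀ q ∈ s, nn (pM A n q) ≤ C) {p q : ℝ × ℝ} (hp : p ∈ s) (hq : q ∈ s) :
    dist (po A n q) (po A n p) ≤ C * dist q p := by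
  rw [dist_eq_norm, dist_eq_norm]
  exact hs.norm_image_sub_le_of_norm_hasFDerivWithin_le
    (f' := fun x => clm (pM A n x))
    (fun x _ => (hasFDerivAt_po A n x).hasFDerivWithinAt)
    (fun x hx => (Pool.Agent.Helper18.UC.norm_clm_le _).trans (hC x hx)) hp hq

theorem near_lin {A : ℕ → ℝ × ℝ} {L B : ℝ} (hA : Bd A L) (hB : 1 ≤ B) {n : ℕ} {p q : ℝ × ℝ} (hp : Hyp A L B n p)
    (hq : dist q p ≤ B / nn (pM A n p)) :
    ∀ i ≤ n, KL L B ^ (2 * (n - i)) * nn (pM A i q - pM A i p) ≤ nn (pM A n p) / B := by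
  have hB0 : 0 < B := by linarith
  have hL4 : 4 ≤ L := Bd_L4 hA
  have hL0 : 0 < L := by linarith
  have hK0 : 0 < KL L B := by
    unfold KL
    have := Real.sqrt_pos.2 hL0
    positivity
  have hK1 : 1 ≤ KL L B := by
    have h1 := h4_KL_sq hL0.le B
    have h2 : 1 ≤ KL L B ^ 2 := by
      rw [h1]
      nlinarith [mul_le_mul hB hB (by norm_num) hB0.le]
    nlinarith
  have hΛ : 0 < nn (pM A n p) := by have := two_le_pnn A n p; linarith
  set Λ := nn (pM A n p) with hΛdef
  intro i
  induction i generalizing q with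
  | zero =>
    intro _
    rw [h4_pM_zero, h4_pM_zero, sub_self]
    have h0 : nn (0 : Matrix (Fin 2) (Fin 2) ℝ) = 0 := by unfold nn; simp
    rw [h0, mul_zero]
    positivity
  | succ i ih =>
    intro hi
    have hi' : i ≤ n := by omega
    set X := KL L B ^ (2 * (n - (i + 1))) with hX
    set P := KL L B ^ (n - i) with hP
    have hX0 : 0 < X := pow_pos hK0 _
    have hP0 : 0 < P := pow_pos hK0 _
    have hP1 : 1 ≤ P := one_le_pow₀ hK1
    have hPX : KL L B ^ (2 * (n - i)) = P ^ 2 := by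
      rw [hP, ← pow_mul, mul_comm 2]
    have hPX2 : P ^ 2 = X * (16 * B ^ 2 * L) := by
      rw [← h4_KL_sq hL0.le, hX, ← pow_add, ← hPX]
      congr 1
      omega
    have hμ : P * nn (pM A i p) ≤ Λ := hp i hi'
    have hμ' : nn (pM A i p) ≤ Λ / P := by
      rw [le_div_iff₀ hP0]
      linarith
    have he : ∀ q' : ℝ × ℝ, dist q' p ≤ B / Λ → nn (pM A i q' - pM A i p) ≤ Λ / (B * P ^ 2) := by
      intro q' hq'
      have h1 := ih hq' hi'
      rw [hPX] at h1
      have h2 : nn (pM A i q' - pM A i p) ≤ (Λ / B) / P ^ 2 := by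
        rw [le_div_iff₀ (by positivity)]
        linarith
      rw [div_div] at h2
      exact h2
    have hball : ∀ q' ∈ Metric.closedBall p (B / Λ), nn (pM A i q') ≤ 2 * Λ / P := by
      intro q' hq'
      have h1 := Pool.Agent.Helper18.UC.nn_sub_le (pM A i q') (pM A i p)
      have h2 := he q' (Metric.mem_closedBall.1 hq')
      have h3 : Λ / (B * P ^ 2) ≤ Λ / P := by
        refine div_le_div_of_nonneg_left hΛ.le hP0 ?_
        nlinarith [mul_le_mul hB (le_refl (P ^ 2)) (by positivity) hB0.le]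
      have h4 : 2 * Λ / P = Λ / P + Λ / P := by ring
      linarith
    have hdist : dist (po A i q) (po A i p) ≤ 2 * B / P := by
      have h1 := po_dist_le A i (convex_closedBall p (B / Λ)) hball
        (Metric.mem_closedBall_self (by positivity)) (Metric.mem_closedBall.2 hq)
      have h2 : 2 * Λ / P * dist q p ≤ 2 * Λ / P * (B / Λ) :=
        mul_le_mul_of_nonneg_left hq (by positivity)
      have h3 : 2 * Λ / P * (B / Λ) = 2 * B / P := by field_simp
      linarith
    have hA' : nn (Pool.Agent.Helper18.UC.A (A i).1 (po A i q) - Pool.Agent.Helper18.UC.A (A i).1 (po A i p)) ≤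
        14 * L * B / P := by
      have h1 : nn (Pool.Agent.Helper18.UC.A (A i).1 (po A i q) - Pool.Agent.Helper18.UC.A (A i).1 (po A i p)) =
          |Pool.Agent.Helper18.UC.vv (A i).1 (po A i q).1 - Pool.Agent.Helper18.UC.vv (A i).1 (po A i p).1| := by
        unfold nn Pool.Agent.Helper18.UC.A
        simp
      have h2 := Pool.Agent.Helper18.UC.vv_lip (A i).1 (po A i q).1 (po A i p).1
      have h3 : |(po A i q).1 - (po A i p).1| ≤ dist (po A i q) (po A i p) := by
        rw [Prod.dist_eq, Real.dist_eq]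
        exact le_max_left _ _
      have h6 : 7 * LL (A i).1 * |(po A i q).1 - (po A i p).1| ≤ 7 * L * |(po A i q).1 - (po A i p).1| :=
        mul_le_mul_of_nonneg_right (by linarith [hA i]) (abs_nonneg _)
      have h4 : 7 * L * |(po A i q).1 - (po A i p).1| ≤ 7 * L * (2 * B / P) :=
        mul_le_mul_of_nonneg_left (h3.trans hdist) (by positivity)
      have h5 : 7 * L * (2 * B / P) = 14 * L * B / P := by ring
      rw [h1]
      linarith
    have hdec : pM A (i + 1) q - pM A (i + 1) p =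
        Pool.Agent.Helper18.UC.A (A i).1 (po A i q) * (pM A i q - pM A i p) +
        (Pool.Agent.Helper18.UC.A (A i).1 (po A i q) - Pool.Agent.Helper18.UC.A (A i).1 (po A i p)) * pM A i p := by
      rw [h4_pM_succ, h4_pM_succ, mul_sub, sub_mul]
      abel
    have hT : nn (pM A (i + 1) q - pM A (i + 1) p) ≤
        L * (Λ / (B * P ^ 2)) + 14 * L * B / P * (Λ / P) := by
      rw [hdec]
      refine (Pool.Agent.Helper18.UC.nn_add_le _ _).trans (add_le_add ?_ ?_)
      · exact (Pool.Agent.Helper18.UC.nn_mul _ _).trans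
          (mul_le_mul ((Pool.Agent.Helper18.UC.nn_A_le (A i).1 _).trans (hA i)) (he q hq)
            (Pool.Agent.Helper18.UC.nn_nonneg _) hL0.le)
      · exact (Pool.Agent.Helper18.UC.nn_mul _ _).trans
          (mul_le_mul hA' hμ' (Pool.Agent.Helper18.UC.nn_nonneg _) (by positivity))
    calc X * nn (pM A (i + 1) q - pM A (i + 1) p)
        ≤ X * (L * (Λ / (B * P ^ 2)) + 14 * L * B / P * (Λ / P)) :=
          mul_le_mul_of_nonneg_left hT hX0.le
      _ = (X * L * Λ / P ^ 2) * (1 / B + 14 * B) := by field_simp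
      _ = (Λ / (16 * B ^ 2)) * (1 / B + 14 * B) := by
          rw [hPX2]
          congr 1
          field_simp
      _ ≤ (Λ / (16 * B ^ 2)) * (16 * B) := by
          refine mul_le_mul_of_nonneg_left ?_ (by positivity)
          have h1 : 1 / B ≤ 1 := by
            rw [div_le_one hB0]
            exact hB
          linarith
      _ = Λ / B := by field_simp

end Pool.Agent.Helper23.AF
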