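import Pool.Agent.Helper23.AF.SLow
import Pool.Agent.Helper23.AF.STor
import Pool.Agent.Helper46.QP.Meas

/-! Block AF-SSUM (port of `cell_low` in `Helper18/UC/Torus.lean` and of `sum_low` in `Helper18/UC/Sums.lean`, only
`j = 0`, to sequences): the crossing estimate summed over two families of cells. -/

set_option autoImplicit false
open MeasureTheory Real Set

namespace Pool.Agent.Helper23.AF

open Pool.Agent.Helper18.UC (nn LL sh clm pt sqo lab rep toT cell corner rep_toT toT_rep rep_mem cell_sub mem_cell_iff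
  mem_cell_self vol_cell vol_rep measurableSet_cell)
open Pool.Agent.Helper46.QP (TT Td)

/-- A point of the plane has at most one integer translate in the unit square. -/
private theorem sh_unique93 {p : ℝ × ℝ} {u v u' v' : ℤ} (h : sh p u v ∈ Ico (0:ℝ) 1 ×ˢ Ico (0:ℝ) 1)
    (h' : sh p u' v' ∈ Ico (0:ℝ) 1 ×ˢ Ico (0:ℝ) 1) : sh p u v = sh p u' v' := by
  have key : ∀ (x : ℝ) (i j : ℤ), x + i ∈ Ico (0:ℝ) 1 → x + j ∈ Ico (0:ℝ) 1 → i = j := by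
    intro x i j hi hj
    have h1 : (i : ℝ) < j + 1 := by linarith [hi.2, hj.1]
    have h2 : (j : ℝ) < i + 1 := by linarith [hi.1, hj.2]
    have h3 : i < j + 1 := by exact_mod_cast h1
    have h4 : j < i + 1 := by exact_mod_cast h2
    omega
  have e1 := key _ _ _ h.1 h'.1
  have e2 := key _ _ _ h.2 h'.2
  rw [e1, e2]

private theorem cell_hit93 (A : ℕ → ℝ × ℝ) (N κ κ' : ℕ) (z z' : TT) :
    cell κ z ∩ {w | Prod.swap (orb A w N) ∈ cell κ' z'} =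
      rep ⁻¹' Hit A N (corner κ z) (1 / 2 ^ κ) (corner κ' z') (1 / 2 ^ κ') := by
  ext w
  have h1 : Prod.swap (orb A w N) = toT (Prod.swap (po A N (rep w))) := by
    have : orb A w N = toT (po A N (rep w)) := by
      rw [toT_po, toT_rep]
    rw [this]
    rfl
  obtain ⟨u, v, huv⟩ := rep_toT (Prod.swap (po A N (rep w)))
  rw [mem_inter_iff, mem_cell_iff, mem_ofPred_eq, mem_cell_iff, h1, huv, mem_preimage]
  constructor
  · rintro ⟨h2, h3⟩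
    exact ⟨h2, u, v, h3⟩
  · rintro ⟨h2, u', v', h3⟩
    refine ⟨h2, ?_⟩
    have h4 := rep_mem (toT (Prod.swap (po A N (rep w))))
    rw [huv] at h4
    rw [sh_unique93 h4 (cell_sub κ' z' h3)]
    exact h3

private theorem vol_cell_hit93 (A : ℕ → ℝ × ℝ) (N κ κ' : ℕ) (z z' : TT) :
    volume (cell κ z ∩ {w | Prod.swap (orb A w N) ∈ cell κ' z'}) =
      volume (Hit A N (corner κ z) (1 / 2 ^ κ) (corner κ' z') (1 / 2 ^ κ')) := by
  rw [cell_hit93, vol_rep (meas_hit _ _ _ _ _ _)]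
  congr 1
  refine inter_eq_left.2 fun q hq => cell_sub κ z hq.1

private theorem inv_pow_lt_one93 {κ : ℕ} (h : 1 ≤ κ) : (1 : ℝ) / 2 ^ κ < 1 := by
  rw [div_lt_one (by positivity)]
  exact one_lt_pow₀ (by norm_num) (by omega)

theorem cell_lo {A : ℕ → ℝ × ℝ} {L B : ℝ} (hA : Bd A L) (hB : 100 ≤ B) {n n' κ κ' : ℕ} (hn : 1 ≤ n) (hn' : 1 ≤ n') {z z' : TT}
    (hz : Fit A L B n κ z) (hz' : Fit (rv A (n + n')) L B n' κ' z') :
    ENNReal.ofReal (1 / (2 * B ^ 2)) * (volume (cell κ z) * volume (cell κ' z')) ≤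
      volume (cell κ z ∩ {w | Prod.swap (orb A w (n + n')) ∈ cell κ' z'}) := by
  obtain ⟨hp, h1, h2, h3⟩ := hz
  obtain ⟨hp', h1', h2', h3'⟩ := hz'
  obtain ⟨k, m, hG⟩ := exists_gd hA hB hn hp
  obtain ⟨k', m', hG'⟩ := exists_gd (Bd_rv hA _) hB hn' hp'
  have h4 := hit_lo hA hB hp hp' hG hG' (c := corner κ z) (c' := corner κ' z') h1 h2
    ((mem_cell_iff κ z z).1 (mem_cell_self κ z)) h1' h2'
    ((mem_cell_iff κ' z' z').1 (mem_cell_self κ' z')) (inv_pow_lt_one93 h3')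
  rw [vol_cell_hit93, vol_cell, vol_cell]
  refine le_trans (le_of_eq ?_) h4
  rw [← ENNReal.ofReal_mul (by positivity), ← ENNReal.ofReal_mul (by positivity)]
  congr 1
  ring

private lemma fam_meas93 {A : ℕ → ℝ × ℝ} {L B : ℝ} {n : ℕ} {E : Set TT} {η : ℝ} {𝒬 : Set (Set TT)}
    (hQ : FamS A L B n E η 𝒬) : ∀ Q ∈ 𝒬, MeasurableSet Q := by
  intro Q h
  obtain ⟨κ, z, rfl, -⟩ := hQ.2.2.1 Q h
  exact measurableSet_cell κ z

private lemma fam_sUnion_meas93 {A : ℕ → ℝ × ℝ} {L B : ℝ} {n : ℕ} {E : Set TT} {η : ℝ} {𝒬 : Set (Set TT)}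
    (hQ : FamS A L B n E η 𝒬) : MeasurableSet (⋃₀ 𝒬) :=
  MeasurableSet.sUnion hQ.1 (fam_meas93 hQ)

private lemma sUnion_tsum93 {𝒬 : Set (Set TT)} (hc : 𝒬.Countable) (hd : 𝒬.PairwiseDisjoint id)
    (hm : ∀ Q ∈ 𝒬, MeasurableSet Q) (μ : Measure TT) : μ (⋃₀ 𝒬) = ∑' Q : 𝒬, μ Q :=
  measure_sUnion hc hd hm

private lemma double_tsum93 {𝒬 𝒬' : Set (Set TT)} (hc : 𝒬.Countable) (hd : 𝒬.PairwiseDisjoint id)
    (hm : ∀ Q ∈ 𝒬, MeasurableSet Q) (hc' : 𝒬'.Countable) (hd' : 𝒬'.PairwiseDisjoint id)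
    (hm' : ∀ Q ∈ 𝒬', MeasurableSet Q) {Θ : TT → TT} (hΘ : Measurable Θ) :
    volume (⋃₀ 𝒬 ∩ Θ ⁻¹' (⋃₀ 𝒬')) =
      ∑' Q : 𝒬, ∑' Q' : 𝒬', volume ((Q : Set TT) ∩ Θ ⁻¹' (Q' : Set TT)) := by
  have hU' : MeasurableSet (⋃₀ 𝒬') := MeasurableSet.sUnion hc' hm'
  have hU : MeasurableSet (⋃₀ 𝒬) := MeasurableSet.sUnion hc hm
  rw [← Measure.restrict_apply hU, sUnion_tsum93 hc hd hm]
  refine tsum_congr fun Q => ?_
  have hQm : MeasurableSet (Q : Set TT) := hm Q Q.2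
  rw [Measure.restrict_apply hQm, inter_comm (Q : Set TT),
    ← Measure.restrict_apply (hΘ hU'), ← Measure.map_apply hΘ hU', sUnion_tsum93 hc' hd' hm']
  refine tsum_congr fun Q' => ?_
  have hQm' : MeasurableSet (Q' : Set TT) := hm' Q' Q'.2
  rw [Measure.map_apply hΘ hQm', Measure.restrict_apply (hΘ hQm'), inter_comm]

private lemma prod_tsum93 {𝒬 𝒬' : Set (Set TT)} (hc : 𝒬.Countable) (hd : 𝒬.PairwiseDisjoint id)
    (hm : ∀ Q ∈ 𝒬, MeasurableSet Q) (hc' : 𝒬'.Countable) (hd' : 𝒬'.PairwiseDisjoint id)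
    (hm' : ∀ Q ∈ 𝒬', MeasurableSet Q) (b : ENNReal) :
    ∑' Q : 𝒬, ∑' Q' : 𝒬', b * (volume (Q : Set TT) * volume (Q' : Set TT)) =
      b * (volume (⋃₀ 𝒬) * volume (⋃₀ 𝒬')) := by
  rw [sUnion_tsum93 hc hd hm volume, sUnion_tsum93 hc' hd' hm' volume, ← ENNReal.tsum_mul_right,
    ← ENNReal.tsum_mul_left]
  refine tsum_congr fun Q => ?_
  rw [← ENNReal.tsum_mul_left, ← ENNReal.tsum_mul_left]

private lemma vol_univ93 : volume (univ : Set TT) = 1 := by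
  rw [Measure.volume_eq_prod, ← univ_prod_univ, Measure.prod_prod, UnitAddCircle.measure_univ, mul_one]

private lemma fam_diff93 {A : ℕ → ℝ × ℝ} {L B : ℝ} {n : ℕ} {E : Set TT} {η : ℝ} {𝒬 : Set (Set TT)}
    (hη : 0 ≤ η) (hQ : FamS A L B n E η 𝒬) :
    volume.real (⋃₀ 𝒬 \ E) ≤ η := by
  have h1 : volume (⋃₀ 𝒬 \ E) ≤ ENNReal.ofReal η := by
    have hm := fam_meas93 hQ
    have hU : MeasurableSet (⋃₀ 𝒬) := fam_sUnion_meas93 hQ
    calc volume (⋃₀ 𝒬 \ E) = (volume.restrict Eᶜ) (⋃₀ 𝒬) := by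
          rw [Measure.restrict_apply hU]; rfl
      _ = ∑' Q : 𝒬, (volume.restrict Eᶜ) Q := sUnion_tsum93 hQ.1 hQ.2.1 hm _
      _ ≤ ∑' Q : 𝒬, ENNReal.ofReal η * volume (Q : Set TT) := by
          refine ENNReal.tsum_le_tsum fun Q => ?_
          rw [Measure.restrict_apply (hm Q Q.2)]
          exact hQ.2.2.2 Q Q.2
      _ = ENNReal.ofReal η * volume (⋃₀ 𝒬) := by
          rw [ENNReal.tsum_mul_left, sUnion_tsum93 hQ.1 hQ.2.1 hm volume]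
      _ ≤ ENNReal.ofReal η * 1 := by
          have h1 : volume (⋃₀ 𝒬) ≤ 1 := (measure_mono (subset_univ _)).trans vol_univ93.le
          exact mul_le_mul_right h1 _
      _ = ENNReal.ofReal η := mul_one _
  exact ENNReal.toReal_le_of_le_ofReal hη h1

private lemma theta_mp93 (A : ℕ → ℝ × ℝ) (N : ℕ) :
    MeasurePreserving (fun w => Prod.swap (orb A w N)) (volume : Measure TT) volume := by
  have h1 : MeasurePreserving (fun w => orb A w N) (volume : Measure TT) volume :=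
    orb_mp A N
  have h2 : MeasurePreserving (Prod.swap : TT → TT) volume volume :=
    Measure.measurePreserving_swap
  exact h2.comp h1

theorem sum_lo {A : ℕ → ℝ × ℝ} {L B : ℝ} (hA : Bd A L) (hB : 100 ≤ B) {n n' : ℕ} (hn : 1 ≤ n) (hn' : 1 ≤ n') {E E' : Set TT}
    (hE : MeasurableSet E) (hE' : MeasurableSet E') {η : ℝ} (hη : 0 ≤ η) {𝒬 𝒬' : Set (Set TT)}
    (hQ : FamS A L B n E η 𝒬) (hQ' : FamS (rv A (n + n')) L B n' (Prod.swap ⁻¹' E') η 𝒬') :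
    1 / (2 * B ^ 2) * (volume.real (⋃₀ 𝒬) * volume.real (⋃₀ 𝒬')) - 2 * η ≤
      volume.real (E ∩ (fun z => orb A z (n + n')) ⁻¹' E') := by
  set Θ : TT → TT := fun w => Prod.swap (orb A w (n + n')) with hΘd
  have hΘ : MeasurePreserving Θ volume volume := theta_mp93 A (n + n')
  have hm := fam_meas93 hQ
  have hm' := fam_meas93 hQ'
  have hU := fam_sUnion_meas93 hQ
  have hU' := fam_sUnion_meas93 hQ'
  have hE'' : MeasurableSet (Prod.swap ⁻¹' E' : Set TT) := measurable_swap hE'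
  have hb0 : 0 ≤ 1 / (2 * B ^ 2) := by positivity
  have key : 1 / (2 * B ^ 2) * (volume.real (⋃₀ 𝒬) * volume.real (⋃₀ 𝒬')) ≤
      volume.real (⋃₀ 𝒬 ∩ Θ ⁻¹' (⋃₀ 𝒬')) := by
    have h : ENNReal.ofReal (1 / (2 * B ^ 2)) * (volume (⋃₀ 𝒬) * volume (⋃₀ 𝒬')) ≤
        volume (⋃₀ 𝒬 ∩ Θ ⁻¹' (⋃₀ 𝒬')) := by
      rw [double_tsum93 hQ.1 hQ.2.1 hm hQ'.1 hQ'.2.1 hm' hΘ.measurable,
        ← prod_tsum93 hQ.1 hQ.2.1 hm hQ'.1 hQ'.2.1 hm']
      refine ENNReal.tsum_le_tsum fun Q => ENNReal.tsum_le_tsum fun Q' => ?_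
      obtain ⟨κ, z, hz, hf⟩ := hQ.2.2.1 Q Q.2
      obtain ⟨κ', z', hz', hf'⟩ := hQ'.2.2.1 Q' Q'.2
      rw [hz, hz']
      exact cell_lo hA hB hn hn' hf hf'
    have h2 := ENNReal.toReal_mono (measure_ne_top _ _) h
    rwa [ENNReal.toReal_mul, ENNReal.toReal_mul, ENNReal.toReal_ofReal hb0] at h2
  have hsub : ⋃₀ 𝒬 ∩ Θ ⁻¹' (⋃₀ 𝒬') ⊆
      (E ∩ (fun z => orb A z (n + n')) ⁻¹' E') ∪
        ((⋃₀ 𝒬 \ E) ∪ Θ ⁻¹' (⋃₀ 𝒬' \ (Prod.swap ⁻¹' E'))) := by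
    rintro w ⟨h1, h2⟩
    by_cases h3 : w ∈ E
    · by_cases h4 : orb A w (n + n') ∈ E'
      · exact Or.inl ⟨h3, h4⟩
      · refine Or.inr (Or.inr ⟨h2, ?_⟩)
        intro h5
        apply h4
        have : Prod.swap (Prod.swap (orb A w (n + n'))) ∈ E' := h5
        rwa [Prod.swap_swap] at this
    · exact Or.inr (Or.inl ⟨h1, h3⟩)
  have hd1 : volume.real (⋃₀ 𝒬 \ E) ≤ η := fam_diff93 hη hQ
  have hd2 : volume.real (Θ ⁻¹' (⋃₀ 𝒬' \ (Prod.swap ⁻¹' E'))) ≤ η := by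
    rw [Measure.real, hΘ.measure_preimage (hU'.diff hE'').nullMeasurableSet]
    exact fam_diff93 hη hQ'
  have h1 : volume.real (⋃₀ 𝒬 ∩ Θ ⁻¹' (⋃₀ 𝒬')) ≤
      volume.real (E ∩ (fun z => orb A z (n + n')) ⁻¹' E') + (volume.real (⋃₀ 𝒬 \ E) +
        volume.real (Θ ⁻¹' (⋃₀ 𝒬' \ (Prod.swap ⁻¹' E')))) :=
    (measureReal_mono hsub).trans ((measureReal_union_le _ _).trans
      (add_le_add le_rfl (measureReal_union_le _ _)))
  linarith

end Pool.Agent.Helper23.AF
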